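import Pool.Agent.K7.H84.GG.Stm

set_option autoImplicit false

namespace Pool.Agent.K7.H14.GGS5

open Finset DC813 Pool.Agent.K7.H84.GG

lemma cl_ins {α : Type} [DecidableEq α] {r : Finset α → ℕ} (hr : IsRk r) {A B : Finset α} {e : α}
    (hAB : A ⊆ B) (h : r (insert e A) = r A) : r (insert e B) = r B := by
  have h1 := hr.submod (insert e A) B
  have h2 : insert e A ∪ B = insert e B := by
    rw [insert_union, union_eq_right.2 hAB]
  have h3 : A ⊆ insert e A ∩ B := fun x hx => mem_inter.2 ⟨mem_insert_of_mem hx, hAB hx⟩
  have h4 := hr.mono _ _ h3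
  have h5 := hr.mono B (insert e B) (subset_insert _ _)
  rw [h2] at h1
  omega

lemma cl_un {α : Type} [DecidableEq α] {r : Finset α → ℕ} (hr : IsRk r) {A B L : Finset α}
    (hAB : A ⊆ B) (h : r (A ∪ L) = r A) : r (B ∪ L) = r B := by
  have h1 := hr.submod (A ∪ L) B
  have h2 : A ∪ L ∪ B = B ∪ L := by
    rw [union_right_comm, union_eq_right.2 hAB]
  have h3 : A ⊆ (A ∪ L) ∩ B := fun x hx => mem_inter.2 ⟨mem_union_left _ hx, hAB hx⟩
  have h4 := hr.mono _ _ h3
  have h5 := hr.mono B (B ∪ L) subset_union_left
  rw [h2] at h1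
  omega

lemma mu_congr {α : Type} [DecidableEq α] {r r' : Finset α → ℕ} {E : Finset α}
    (h : ∀ X ⊆ E, r X = r' X) : mu r E = mu r' E := by
  unfold mu
  rw [h E subset_rfl]
  congr 1
  refine Finset.sum_congr ?_ fun _ _ => rfl
  refine Finset.filter_congr fun X hX => ?_
  rw [h X (mem_powerset.1 hX)]

theorem t (hTR : StTR) (hBco : StBco) (hBp : StBp) : StS5 := by
  intro α _ r E L p f H hc hIH hf hH hHL
  obtain ⟨hr, lp, hp, hLf, hL2, hpL⟩ := hc
  have hH' := mem_filter.1 hH
  obtain ⟨hHf, hHr, hpH⟩ := hH'
  have hHE : H ⊆ E := mem_powerset.1 (mem_filter.1 hHf).1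
  have hHfl : ∀ e ∈ E, e ∉ H → r H < r (insert e H) := (mem_filter.1 hHf).2
  have hLE : L ⊆ E := mem_powerset.1 (mem_filter.1 hLf).1
  have hLfl : ∀ e ∈ E, e ∉ L → r L < r (insert e L) := (mem_filter.1 hLf).2
  have up : ∀ A ⊆ H, ∀ e ∈ E, e ∉ H → r (insert e A) = r A + 1 := by
    intro A hA e he heH
    have h1 := hr.insert_le A e
    have h2 := hr.mono A _ (subset_insert e A)
    by_contra h3
    have h4 : r (insert e A) = r A := by omega
    have h5 := cl_ins hr hA h4
    have h6 := hHfl e he heH
    omega
  have upp : ∀ A ⊆ H, r (insert p A) = r A + 1 := fun A hA => up A hA p hp hpH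
  set s := tr r L with hs
  have htr : ∀ A, s A = r A - (if r (A ∪ L) = r A then 1 else 0) := fun A => rfl
  have htr1 : ∀ A, r (A ∪ L) = r A → s A = r A - 1 := fun A h => by rw [htr, if_pos h]
  have htr0 : ∀ A, r (A ∪ L) ≠ r A → s A = r A := fun A h => by rw [htr, if_neg h, Nat.sub_zero]
  have htrle : ∀ A, s A ≤ r A := fun A => by rw [htr]; exact Nat.sub_le _ _
  have htrge : ∀ A, r A ≤ s A + 1 := fun A => by rw [htr]; split_ifs <;> omega
  have hsr : IsRk s := hTR α r L hr (by omega)
  have hipH : insert p H ⊆ E := insert_subset hp hHE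
  have hsH : s (insert p H) = r H := by
    have h1 := hr.mono (insert p H ∪ L) E (union_subset hipH hLE)
    have h2 := hr.mono (insert p H) _ (subset_union_left (s₂ := L))
    have h3 := upp H subset_rfl
    rw [htr1 _ (by omega)]; omega
  have hone : ∀ x ∈ E, r {x} = 1 := by
    intro x hx
    have h1 := hr.insert_le ∅ x
    rw [hr.empty, insert_empty_eq] at h1
    have h2 := lp x hx
    omega
  have hsone : ∀ x ∈ E, s {x} = 1 := by
    intro x hx
    have h1 := hone x hx
    have h2 := hr.mono L ({x} ∪ L) subset_union_right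
    rw [htr0 _ (by omega), h1]
  have hGG := hIH (r H) (by omega) s (insert p H) p f hsr hsH
    (fun x hx => by rw [hsone x (hipH hx)]; exact one_pos) (mem_insert_self _ _) hf
  unfold GGs at hGG
  -- right-hand side
  have hRset : hy s (insert p H) p = (T1 r E L).filter (fun G => G ⊆ H) := by
    ext G
    simp only [hy, T1, fl, mem_filter, mem_powerset]
    constructor
    · rintro ⟨⟨hGs, hGf⟩, hGr, hpG⟩
      have hGH : G ⊆ H := by
        intro x hx
        rcases mem_insert.1 (hGs hx) with h | h
        · exact absurd (h ▸ hx) hpG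
        · exact h
      rw [hsH] at hGr
      have h1 := hGf p (mem_insert_self _ _) hpG
      have h2 := upp G hGH
      have hpGL : insert p G ∪ L = G ∪ L := by
        rw [insert_union, insert_eq_of_mem (mem_union_right _ hpL)]
      have h3 : r (G ∪ L) ≠ r G := by
        intro h
        have h4 := hr.mono (insert p G) (insert p G ∪ L) subset_union_left
        rw [hpGL] at h4
        omega
      have h4 := htr0 G h3
      have h5 : r (G ∪ L) = r E := by
        have h6 : r (insert p G ∪ L) ≠ r (insert p G) := by
          intro h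
          have := htr1 _ h
          omega
        rw [hpGL] at h6
        have h7 := hr.mono (insert p G) (insert p G ∪ L) subset_union_left
        rw [hpGL] at h7
        have h8 := hr.mono (G ∪ L) E (union_subset (hGH.trans hHE) hLE)
        omega
      refine ⟨⟨⟨hGH.trans hHE, ?_⟩, by omega, h5⟩, hGH⟩
      intro e he heG
      by_cases heH : e ∈ H
      · have h6 := hGf e (mem_insert_of_mem heH) heG
        have h7 := htrle (insert e G)
        omega
      · rw [up G hGH e he heH]; omega
    · rintro ⟨⟨⟨hGE, hGf⟩, hGr, hGL⟩, hGH⟩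
      have hpG : p ∉ G := fun h => hpH (hGH h)
      have h0 := htr0 G (by omega)
      refine ⟨⟨hGH.trans (subset_insert _ _), ?_⟩, by rw [hsH]; omega, hpG⟩
      intro e he heG
      have heE : e ∈ E := hipH he
      have h1 := hGf e heE heG
      have h2 := hr.insert_le G e
      have h3 := hr.mono (G ∪ L) (insert e G ∪ L)
        (union_subset_union_left (subset_insert _ _))
      rw [htr0 (insert e G) (by omega)]
      omega
  have hRmu : ∀ G ∈ (T1 r E L).filter (fun G => G ⊆ H), mu s G * f G = mu r G * f G := by
    intro G hG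
    simp only [T1, fl, mem_filter, mem_powerset] at hG
    obtain ⟨⟨⟨hGE, hGf⟩, hGr, hGL⟩, hGH⟩ := hG
    congr 1
    refine mu_congr fun A hA => htr0 A ?_
    intro h
    have := cl_un hr hA h
    omega
  rw [hRset, sum_congr rfl hRmu] at hGG
  refine le_trans (le_of_eq ?_) hGG
  -- left-hand side
  set g : Finset α → ℤ := fun F => beta s F * mc s (insert p H) F * f (insert p H \ F) with hg
  set XH := (XX r E L).filter (fun X => X ⊆ H) with hXH
  have hXHmem : ∀ X, X ∈ XH ↔ (X ⊆ H ∧ X.Nonempty ∧ r (X ∪ L) = r X + 1 ∧
      ∀ e ∈ E, e ∉ X → r X < r (insert e X)) := by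
    intro X
    simp only [hXH, XX, fl, mem_filter, mem_powerset]
    constructor
    · rintro ⟨⟨⟨h1, h2⟩, h3, h4, h5⟩, h6⟩; exact ⟨h6, h3, h5, h2⟩
    · rintro ⟨h6, h3, h5, h2⟩
      exact ⟨⟨⟨h6.trans hHE, h2⟩, h3, disjoint_of_subset_left h6 hHL, h5⟩, h6⟩
  have hpFF : {p} ∈ (fl s (insert p H)).filter (fun F => p ∈ F) := by
    simp only [fl, mem_filter, mem_powerset]
    refine ⟨⟨singleton_subset_iff.2 (mem_insert_self _ _), ?_⟩, mem_singleton_self p⟩
    intro e he hep
    have heH : e ∈ H := by
      rcases mem_insert.1 he with h | h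
      · exact absurd (mem_singleton.2 h) hep
      · exact h
    have heE := hHE heH
    rw [hsone p hp]
    have h1 : r (insert p {e}) = r {e} + 1 := upp {e} (singleton_subset_iff.2 heH)
    rw [hone e heE] at h1
    have h2 : insert e ({p} : Finset α) = insert p {e} := Finset.pair_comm _ _
    rw [h2]
    have h3 : e ∉ L := fun h => disjoint_left.1 hHL heH h
    have h4 := hLfl e heE h3
    have h5 := hr.mono (insert e L) (insert p {e} ∪ L) (by
      intro x hx
      rcases mem_insert.1 hx with h | h
      · rw [h]; exact mem_union_left _ (mem_insert_of_mem (mem_singleton_self e))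
      · exact mem_union_right _ h)
    rw [htr0 _ (by omega)]
    omega
  have hinj : Set.InjOn (fun X : Finset α => insert p X) (XH : Set (Finset α)) := by
    intro X hX Y hY hXY
    have hX' := ((hXHmem X).1 hX).1
    have hY' := ((hXHmem Y).1 hY).1
    have h1 : (insert p X).erase p = (insert p Y).erase p := congrArg (fun Z => Z.erase p) hXY
    rwa [erase_insert (fun h => hpH (hX' h)), erase_insert (fun h => hpH (hY' h))] at h1
  have hsX : ∀ X ∈ XH, s (insert p X) = r X := by
    intro X hX
    obtain ⟨h1, h2, h3, h4⟩ := (hXHmem X).1 hX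
    have h5 := upp X h1
    have h6 : insert p X ∪ L = X ∪ L := by
      rw [insert_union, insert_eq_of_mem (mem_union_right _ hpL)]
    rw [htr1 _ (by rw [h6]; omega)]
    omega
  have hsub : XH.image (fun X => insert p X) ⊆
      ((fl s (insert p H)).filter (fun F => p ∈ F)).erase {p} := by
    intro F hF
    obtain ⟨X, hX, rfl⟩ := mem_image.1 hF
    obtain ⟨h1, h2, h3, h4⟩ := (hXHmem X).1 hX
    have hpX : p ∉ X := fun h => hpH (h1 h)
    refine mem_erase.2 ⟨?_, ?_⟩
    · intro h
      obtain ⟨x, hx⟩ := h2
      have h5 : x ∈ ({p} : Finset α) := h ▸ mem_insert_of_mem hx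
      rw [mem_singleton] at h5
      exact hpX (h5 ▸ hx)
    · simp only [fl, mem_filter, mem_powerset]
      refine ⟨⟨insert_subset_insert _ h1, ?_⟩, mem_insert_self _ _⟩
      intro e he heX
      have heH : e ∈ H := by
        rcases mem_insert.1 he with h | h
        · exact absurd (h ▸ mem_insert_self _ _) heX
        · exact h
      have heX' : e ∉ X := fun h => heX (mem_insert_of_mem h)
      rw [hsX X hX]
      have h5 := h4 e (hHE heH) heX'
      have h6 := upp (insert e X) (insert_subset heH h1)
      rw [Finset.insert_comm] at h6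
      have h7 := htrge (insert e (insert p X))
      omega
  have hzero : ∀ F ∈ ((fl s (insert p H)).filter (fun F => p ∈ F)).erase {p},
      F ∉ XH.image (fun X => insert p X) → g F = 0 := by
    intro F hF hFX
    obtain ⟨hFp, hF'⟩ := mem_erase.1 hF
    simp only [fl, mem_filter, mem_powerset] at hF'
    obtain ⟨⟨hFH, hFf⟩, hpF⟩ := hF'
    have hins : insert p (F.erase p) = F := insert_erase hpF
    have hXH' : F.erase p ⊆ H := by
      intro x hx
      obtain ⟨h1, h2⟩ := mem_erase.1 hx
      rcases mem_insert.1 (hFH h2) with h | h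
      · exact absurd h h1
      · exact h
    have hb : beta s F = 0 := by
      refine hBco α s F p hsr hpF hFp ?_
      by_contra hlt
      have h1 := hsr.mono _ _ (erase_subset p F)
      have h2 : s (F.erase p) = s F := by omega
      apply hFX
      rw [mem_image]
      refine ⟨F.erase p, (hXHmem _).2 ⟨hXH', ?_, ?_, ?_⟩, hins⟩
      · rw [nonempty_iff_ne_empty]
        intro h
        rw [h] at hins
        exact hFp (hins ▸ rfl)
      · have h3 := upp _ hXH'
        rw [hins] at h3
        have h4 : F.erase p ∪ L = F ∪ L := by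
          rw [← hins, erase_insert (notMem_erase p F), insert_union,
            insert_eq_of_mem (mem_union_right _ hpL)]
        have h5 := hr.mono F (F ∪ L) subset_union_left
        have h6 := htr0 (F.erase p) (by rw [h4]; omega)
        by_contra h7
        rw [h4] at h7
        have h8 := htr0 F (by omega)
        omega
      · intro e he heX
        by_cases heH : e ∈ H
        · have hep : e ≠ p := fun h => hpH (h ▸ heH)
          have heF : e ∉ F := fun h => heX (mem_erase.2 ⟨hep, h⟩)
          have h3 := hFf e (mem_insert_of_mem heH) heF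
          by_contra h4
          have h5 := hr.mono _ _ (subset_insert e (F.erase p))
          have h6 : r (insert e (F.erase p)) = r (F.erase p) := by omega
          have h7 := cl_ins hr (erase_subset p F) h6
          have h8 : r (insert e (F ∪ L)) = r (F ∪ L) :=
            cl_ins hr ((erase_subset p F).trans subset_union_left) h6
          rw [← insert_union] at h8
          have h9 : s (insert e F) = s F := by
            rw [htr, htr, h7, h8]
          omega
        · rw [up _ hXH' e he heH]; omega
    rw [hg]; simp only [hb, zero_mul]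
  have hsum : ∑ F ∈ (fl s (insert p H)).filter (fun F => p ∈ F), g F
      = g {p} + ∑ X ∈ XH, g (insert p X) := by
    rw [← Finset.add_sum_erase _ _ hpFF]
    congr 1
    rw [← Finset.sum_image hinj]
    exact (Finset.sum_subset hsub hzero).symm
  rw [hsum]
  congr 1
  · rw [hg]
    simp only
    have h1 : insert p H \ {p} = H := by
      rw [insert_sdiff_of_mem _ (mem_singleton_self p), sdiff_singleton_eq_erase,
        erase_eq_of_notMem hpH]
    rw [hBp α s p hsr (by rw [hsone p hp]; exact one_pos), one_mul, mc, h1]
  · refine sum_congr rfl fun X hX => ?_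
    rw [hg]
    simp only
    obtain ⟨h1, h2, h3, h4⟩ := (hXHmem X).1 hX
    have hpX : p ∉ X := fun h => hpH (h1 h)
    have h5 : insert p H \ insert p X = H \ X := by
      ext x
      simp only [mem_sdiff, mem_insert]
      constructor
      · rintro ⟨h | h, h'⟩
        · exact absurd (Or.inl h) h'
        · exact ⟨h, fun h'' => h' (Or.inr h'')⟩
      · rintro ⟨h, h'⟩
        refine ⟨Or.inr h, ?_⟩
        rintro (h'' | h'')
        · exact hpH (h'' ▸ h)
        · exact h' h''
    have h6 : mc s (insert p H) (insert p X) = mc r H X := by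
      unfold mc
      rw [h5]
      refine mu_congr fun A hA => ?_
      unfold con
      rw [hsX X hX]
      have hAH : A ∪ X ⊆ H := union_subset (hA.trans sdiff_subset) h1
      have h7 : A ∪ insert p X = insert p (A ∪ X) := by rw [union_insert]
      have h8 := upp (A ∪ X) hAH
      have h9 : r (insert p X ∪ L) = r (insert p X) := by
        rw [insert_union, insert_eq_of_mem (mem_union_right _ hpL), upp X h1, h3]
      have h10 : r (insert p (A ∪ X) ∪ L) = r (insert p (A ∪ X)) :=
        cl_un hr (insert_subset_insert _ subset_union_right) h9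
      rw [h7, htr1 _ h10, h8]
      omega
    rw [h6, h5]

end Pool.Agent.K7.H14.GGS5
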