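import Pool.Agent.K7.H14.BF.Final

/-!
# Latin squares of prime order with few arbitrary lines and few stray cells per line

`L` is a Latin square with rows, columns and symbols indexed by the integers modulo a prime `p`.
It is compared with the addition table.
-/

namespace Pool.Agent.K7.H14.StrayCells

/-- The cell `(x, y)` of the Latin square `L` is stray: it is not in one of the exceptional rows
`R` or columns `C`, its symbol is not one of the exceptional symbols `S`, and its symbol is not the
symbol `x + y` of the addition table. -/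
def Stray {p : ℕ} (L : ZMod p → ZMod p → ZMod p) (R C S : Finset (ZMod p)) (x y : ZMod p) : Prop :=
  x ∉ R ∧ y ∉ C ∧ L x y ∉ S ∧ L x y ≠ x + y

/-- Every row and every column contains at most `D` stray cells, and every symbol occurs in at most
`D` stray cells. -/
def FewStray {p : ℕ} (L : ZMod p → ZMod p → ZMod p) (R C S : Finset (ZMod p)) (D : ℕ) : Prop :=
  (∀ x, Nat.card {y // Stray L R C S x y} ≤ D) ∧
  (∀ y, Nat.card {x // Stray L R C S x y} ≤ D) ∧
  (∀ z, Nat.card {c : ZMod p × ZMod p // Stray L R C S c.1 c.2 ∧ L c.1 c.2 = z} ≤ D)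

open Finset Pool.Agent.K7.H14.BF

/-- **Main theorem.**  Let `p` be a prime number with `10 ^ 13 * (⌊log₂ p⌋ + 1) ^ 8 ≤ p` and let `L`
be a Latin square of order `p`.  Let `R`, `C`, `S` be sets of at most `k` rows, columns and symbols,
on which `L` is arbitrary, where `100 * k ^ 2 ≤ p`.  Suppose that every row, column and symbol has at
most `D` stray cells, that there are fewer than `(d + 1) * p / 16` stray cells in all, and that
`200000 * (⌊log₂ p⌋ + 1) ^ 4 * D ≤ p` and `(100 * k) ^ 4 * (d * D) ^ 2 ≤ p`.  Then `L` has a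
transversal. -/
theorem result (p : ℕ) [Fact p.Prime] (hp : 10 ^ 13 * (Nat.log 2 p + 1) ^ 8 ≤ p)
    (L : ZMod p → ZMod p → ZMod p)
    (hrow : ∀ x, Function.Injective (L x)) (hcol : ∀ y, Function.Injective fun x => L x y)
    (R C S : Finset (ZMod p)) (k D d : ℕ)
    (hR : R.card ≤ k) (hC : C.card ≤ k) (hS : S.card ≤ k) (hL : FewStray L R C S D)
    (htot : 16 * Nat.card {c : ZMod p × ZMod p // Stray L R C S c.1 c.2} < p * (d + 1))
    (hk : 100 * k ^ 2 ≤ p) (hD : 200000 * (Nat.log 2 p + 1) ^ 4 * D ≤ p)
    (hd : (100 * k) ^ 4 * (d * D) ^ 2 ≤ p) :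
    ∃ τ : Equiv.Perm (ZMod p), Function.Bijective fun x => L x (τ x) := by
  classical
  obtain ⟨h1, h2, h3⟩ := hL
  have hst : ∀ c : Cell p, c ∈ (ofL L hrow hcol).gd R C (S.image fun z => -z) ↔
      c.2.2 = - L c.1 c.2.1 ∧ Stray L R C S c.1 c.2.1 := by
    intro c
    rw [LSq.mem_gd]
    unfold Stray
    have e : (ofL L hrow hcol).Z c.1 c.2.1 = - L c.1 c.2.1 := rfl
    rw [e]
    constructor
    · rintro ⟨a1, a2, a3, a4, a5⟩
      refine ⟨a1, a2, a3, ?_, ?_⟩
      · intro h
        apply a4
        rw [a1]
        exact Finset.mem_image_of_mem (fun z => -z) h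
      · intro h
        apply a5
        simp only [dsp]
        rw [a1, h]
        ring
    · rintro ⟨a1, a2, a3, a4, a5⟩
      refine ⟨a1, a2, a3, ?_, ?_⟩
      · intro h
        obtain ⟨z, hz, hz2⟩ := Finset.mem_image.mp h
        apply a4
        rw [a1] at hz2
        exact neg_injective hz2 ▸ hz
      · intro h
        apply a5
        simp only [dsp] at h
        rw [a1] at h
        linear_combination -h
  refine lines_main L hrow hcol (D := D) hR hC hS ?_ ?_ ?_ (lt_of_le_of_lt ?_ htot) hp hk hD hd
  · intro x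
    refine le_trans ?_ (h1 x)
    rw [Nat.card_eq_fintype_card, Fintype.card_subtype]
    apply Finset.card_le_card_of_injOn (fun c : Cell p => c.2.1)
    · intro c hc
      simp only [coe_filter, Set.mem_ofPred_eq] at hc
      obtain ⟨hc, rfl⟩ := hc
      simpa using ((hst c).mp hc).2
    · intro c hc c' hc' h
      simp only [coe_filter, Set.mem_ofPred_eq] at hc hc'
      have e1 := ((hst c).mp hc.1).1
      have e2 := ((hst c').mp hc'.1).1
      have h' : c.2.1 = c'.2.1 := h
      refine Prod.ext (hc.2.trans hc'.2.symm) (Prod.ext h' ?_)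
      rw [e1, e2, hc.2, hc'.2, h']
  · intro y
    refine le_trans ?_ (h2 y)
    rw [Nat.card_eq_fintype_card, Fintype.card_subtype]
    apply Finset.card_le_card_of_injOn (fun c : Cell p => c.1)
    · intro c hc
      simp only [coe_filter, Set.mem_ofPred_eq] at hc
      obtain ⟨hc, rfl⟩ := hc
      simpa using ((hst c).mp hc).2
    · intro c hc c' hc' h
      simp only [coe_filter, Set.mem_ofPred_eq] at hc hc'
      have e1 := ((hst c).mp hc.1).1
      have e2 := ((hst c').mp hc'.1).1
      have h' : c.1 = c'.1 := h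
      refine Prod.ext h' (Prod.ext (hc.2.trans hc'.2.symm) ?_)
      rw [e1, e2, hc.2, hc'.2, h']
  · intro z
    refine le_trans ?_ (h3 (-z))
    rw [Nat.card_eq_fintype_card, Fintype.card_subtype]
    apply Finset.card_le_card_of_injOn (fun c : Cell p => (c.1, c.2.1))
    · intro c hc
      simp only [coe_filter, Set.mem_ofPred_eq] at hc
      obtain ⟨hc, rfl⟩ := hc
      obtain ⟨a1, a2⟩ := (hst c).mp hc
      simp only [coe_filter, mem_univ, true_and, Set.mem_ofPred_eq]
      refine ⟨a2, ?_⟩
      rw [a1, neg_neg]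
    · intro c hc c' hc' h
      simp only [coe_filter, Set.mem_ofPred_eq] at hc hc'
      simp only [Prod.mk.injEq] at h
      exact Prod.ext h.1 (Prod.ext h.2 (hc.2.trans hc'.2.symm))
  · refine Nat.mul_le_mul le_rfl ?_
    rw [Nat.card_eq_fintype_card, Fintype.card_subtype]
    apply Finset.card_le_card_of_injOn (fun c : Cell p => (c.1, c.2.1))
    · intro c hc
      simpa using ((hst c).mp hc).2
    · intro c hc c' hc' h
      have e1 := ((hst c).mp hc).1
      have e2 := ((hst c').mp hc').1
      simp only [Prod.mk.injEq] at h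
      refine Prod.ext h.1 (Prod.ext h.2 ?_)
      rw [e1, e2, h.1, h.2]

end Pool.Agent.K7.H14.StrayCells
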